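import Pool.Agent.TH818.AP.Mv2
import Pool.Agent.TH818.AP.Hz2

/-!
# Linear forms in `1, ψ(q), ζ(2, q), …, ζ(K, q)` at almost all rational points
-/

set_option autoImplicit false

namespace Pool.Agent.Results.MP_db0fbf_nt.HurwitzLinearForms

/-- `g_0 = 1`, `g_1 = ψ = Γ' / Γ` (the digamma function), and for `k ≥ 2` the Hurwitz zeta function
`g_k(t) = ζ(k, t) = ∑_{m ≥ 0} (t + m)^(-k)`, so that `g_k(1) = ζ(k)`. -/
noncomputable def g (k : ℕ) (t : ℝ) : ℝ :=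
  if k = 0 then 1 else if k = 1 then deriv Real.Gamma t / Real.Gamma t else ∑' m : ℕ, 1 / (t + m) ^ k

/-- The `n`-tuples `q` of rational numbers, `q_j` in `[a_j, b_j]`, with denominators at most `T` such that there are
integers `c (k_1, …, k_n) i`, not all zero, of absolute value at most `T ^ A` (`0 ≤ k_j ≤ K`, `0 ≤ i ≤ d`), with
`|∑ c (k_1, …, k_n) i π^i g_(k_1)(q_1) ⋯ g_(k_n)(q_n)| ≤ T ^ (-B)`. -/
def Exceptional {n : ℕ} (K d : ℕ) (a b : Fin n → ℝ) (A B T : ℝ) : Set (Fin n → ℚ) :=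
  {q | (∀ j, a j ≤ q j ∧ q j ≤ b j ∧ ((q j).den : ℝ) ≤ T) ∧
    ∃ c : (Fin n → Fin (K + 1)) → Fin (d + 1) → ℤ, c ≠ 0 ∧ (∀ k i, |(c k i : ℝ)| ≤ T ^ A) ∧
      |∑ k, ∑ i, (c k i : ℝ) * (Real.pi ^ (i : ℕ) * ∏ j, g (k j) (q j))| ≤ T ^ (-B)}

/-- Let `n ≥ 1`, `0 < a_j < b_j`, `K`, `d`, `A ≥ 0` be given, let `M = (K + 1)^n (d + 1)` and `β > 2 - 2 / (M + 1)`.
There are `B` and `C` such that for all `T ≥ 1` the number of exceptional `n`-tuples is at most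
`C T^(2(n - 1) + β)`. -/
theorem result (n K d : ℕ) (hn : 1 ≤ n) (a b : Fin n → ℝ) (ha : ∀ j, 0 < a j) (hab : ∀ j, a j < b j) (A β : ℝ)
    (hA : 0 ≤ A) (hβ : 2 - 2 / (((K : ℝ) + 1) ^ n * ((d : ℝ) + 1) + 1) < β) :
    ∃ B C : ℝ, ∀ T : ℝ, 1 ≤ T → (Exceptional K d a b A B T).Finite ∧
      ((Exceptional K d a b A B T).ncard : ℝ) ≤ C * T ^ (2 * ((n : ℝ) - 1) + β) := by
  classical
  have hg : ∀ k, g k = TH818.AP.Hyp.gz k := fun k => rfl
  have hpos : 0 < Fintype.card (Fin (K + 1)) := Fintype.card_pos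
  have hβ' : 2 * (((Fintype.card (Fin (K + 1))) ^ n * Fintype.card (Fin (d + 1)) : ℕ) : ℝ) /
      ((((Fintype.card (Fin (K + 1))) ^ n * Fintype.card (Fin (d + 1)) : ℕ) : ℝ) + 1) < β := by
    rw [Fintype.card_fin, Fintype.card_fin]
    refine lt_of_le_of_lt (le_of_eq ?_) hβ
    push_cast
    have h1 : ((K : ℝ) + 1) ^ n * ((d : ℝ) + 1) + 1 ≠ 0 := by positivity
    field_simp
    ring
  obtain ⟨B, C, h⟩ := TH818.AP.multi_gen hpos _ (TH818.AP.goodConst_pi d) n hn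
    (fun _ (k : Fin (K + 1)) (t : ℝ) => g k t) a b hab
    (fun j k z hz => TH818.AP.Hyp.gz_an k ((ha j).trans_le hz.1))
    (fun j => TH818.AP.Hyp.gz_indep K (ha j) (hab j)) A β hA hβ'
  refine ⟨B, C, fun T hT => ?_⟩
  obtain ⟨hfin, hle⟩ := h T hT
  have hsub : Exceptional K d a b A B T ⊆ TH818.AP.ExcM (fun _ (k : Fin (K + 1)) (t : ℝ) => g k t)
      (fun e : Fin (d + 1) => Real.pi ^ (e : ℕ)) a b A B T := by
    rintro q ⟨hq, c, hc0, hc, hcs⟩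
    refine ⟨fun j => ⟨⟨(hq j).1, (hq j).2.1⟩, (hq j).2.2⟩, fun e => c e.1 e.2, ?_, fun e => hc _ _, ?_⟩
    · intro h0
      apply hc0
      funext w i
      exact congrFun h0 (w, i)
    · refine le_trans (le_of_eq ?_) hcs
      congr 1
      rw [Fintype.sum_prod_type]
      refine Finset.sum_congr rfl fun w _ => Finset.sum_congr rfl fun i _ => ?_
      simp only [TH818.AP.mono]
      ring
  refine ⟨hfin.subset hsub, le_trans ?_ hle⟩
  exact_mod_cast Set.ncard_le_ncard hsub hfin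

end Pool.Agent.Results.MP_db0fbf_nt.HurwitzLinearForms
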