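import Pool.Agent.TH900.YM.Meas

/-!
# A simultaneous measure for the seven numbers `ζ(9), ζ(11), …, ζ(21)`

Quantitative form of `OddZeta9To21` (one of the seven numbers is irrational): rational numbers with a common
denominator `q` cannot approximate all the seven numbers with an error below `c q^(-1038)`.

The proof (`Pool/Agent/TH900/YM`, `Pool/Agent/TH900/OM`, on top of the library `Pool/Agent/H343Y` of helper343)
applies the Hankel determinants of `H343Y` to the rational numbers `a j / q` themselves:

* the functional `N(Q)` with `ζ(j)` replaced by `a j / q` differs from the series by `∑ ρ_i (ζ(i+6) - u_i)`, and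
  `|ρ_i|` is bounded by interpolation of the numerator at points of the contour of `H343Y`;
* the determinant does not vanish if the prime `n` satisfies `n^9 ∤ q`; such a prime exists between `log q / 3`
  and `1.2223 log q` by the prime number theorem in the class `1` modulo `24`;
* the `p`-adic bounds of `H343Y` hold for arbitrary rational numbers with common denominator `q`.
-/

namespace Pool.Agent.Results.MP_db0fbf_nt.MeasureZeta9To21

/-- There is `c > 0` such that for all integers `a j` and `q ≥ 1` there is an odd `j`, `9 ≤ j ≤ 21`, with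
`|ζ(j) - a j / q| ≥ c q^(-1038)`, where `ζ(j) = ∑ 1/(n+1)^j`. -/
theorem result : ∃ c : ℝ, 0 < c ∧ ∀ (a : ℕ → ℤ) (q : ℕ), 0 < q → ∃ j : ℕ, Odd j ∧ 9 ≤ j ∧ j ≤ 21 ∧
    c / (q : ℝ) ^ 1038 ≤ |(∑' n : ℕ, 1 / ((n : ℝ) + 1) ^ j) - (a j : ℝ) / q| := by
  obtain ⟨c, hc, h⟩ := Pool.Agent.TH900.YM.measure
  refine ⟨c, hc, fun a q hq => ?_⟩
  obtain ⟨j, hj, h1⟩ := h a q hq
  refine ⟨j, ?_, ?_, ?_, h1⟩
  · fin_cases hj <;> decide
  · fin_cases hj <;> decide
  · fin_cases hj <;> decide

end Pool.Agent.Results.MP_db0fbf_nt.MeasureZeta9To21
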